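import Pool.Agent.X19.DP.Main

/-!
# MP_d61c7e_al: a single polynomial which determines all non-degenerate endomorphisms

Q1 has the answer yes, for every field of characteristic zero and every number of variables. The
polynomial is a sum of `N`-th powers of inhomogeneous linear forms `v_i(x) - t`, where the `v_i` are
`2n` linear forms, any `n` of which are linearly independent, and for each form there are many
nodes `t`; the nodes of all the forms are rigid: only the identity, among the affine maps of the
line, maps three of them to nodes. Main tool: `N`-th powers of `k` pairwise non-proportional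
polynomials are linearly independent for `N ≥ k^2` (Wronskians).
-/

set_option autoImplicit false

open MvPolynomial

namespace Pool.Agent.Results.MP_d61c7e_al.DeterminingPolynomial

/-- An endomorphism of the polynomial algebra is non-degenerate if its image contains a
non-constant polynomial. -/
def NonDegenerate {n : ℕ} {K : Type*} [Field K]
    (φ : MvPolynomial (Fin n) K →ₐ[K] MvPolynomial (Fin n) K) : Prop :=
  ∃ f : MvPolynomial (Fin n) K, ∀ c : K, φ f ≠ C c

/-- For every field `K` of characteristic zero and every `n` there is a polynomial
`p ∈ K[x_1, ..., x_n]` such that any two non-degenerate endomorphisms `φ`, `ψ` of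
`K[x_1, ..., x_n]` with `φ(p) = ψ(p)` are equal. The same polynomial determines the homomorphisms
into any polynomial algebra (in any set `τ` of variables), and only one of the two homomorphisms
has to be non-degenerate. -/
theorem result (n : ℕ) (K : Type*) [Field K] [CharZero K] :
    ∃ p : MvPolynomial (Fin n) K,
      (∀ φ ψ : MvPolynomial (Fin n) K →ₐ[K] MvPolynomial (Fin n) K,
        NonDegenerate φ → NonDegenerate ψ → φ p = ψ p → φ = ψ) ∧
      ∀ (τ : Type) (φ ψ : MvPolynomial (Fin n) K →ₐ[K] MvPolynomial τ K),
        (∃ f, ∀ c : K, φ f ≠ C c) → φ p = ψ p → φ = ψ := by
  obtain ⟨p, hp⟩ := Pool.Agent.X19.DP.main n K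
  exact ⟨p, fun φ ψ h _ e => hp (Fin n) φ ψ h e, hp⟩

end Pool.Agent.Results.MP_d61c7e_al.DeterminingPolynomial
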